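import Pool.Agent.helper27.PC.Stmt

namespace Pool.Agent.helper27.PC

/-- change of sign or not -/
def CARD_eps (b : Bool) : Bool ≃ Bool := if b then Equiv.boolNot else Equiv.refl Bool

theorem CARD_eps_not (b c : Bool) : CARD_eps b (!c) = !(CARD_eps b c) := by
  cases b <;> cases c <;> simp [CARD_eps]

theorem CARD_eps_inj {b c : Bool} (h : CARD_eps b true = CARD_eps c true) : b = c := by
  cases b <;> cases c <;> simp_all [CARD_eps]

/-- signed permutations from a permutation and signs -/
def CARD_map (n : ℕ) (p : Equiv.Perm (Fin n) × (Fin n → Bool)) : W n :=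
  ⟨Equiv.prodShear p.1 (fun i => CARD_eps (p.2 i)), by
    rw [mem_W]
    rintro ⟨i, b⟩
    show (p.1 i, CARD_eps (p.2 i) (!b)) = (p.1 i, !(CARD_eps (p.2 i) b))
    rw [CARD_eps_not]⟩

theorem CARD_apply (n : ℕ) (p : Equiv.Perm (Fin n) × (Fin n → Bool)) (i : Fin n) (b : Bool) :
    (CARD_map n p).1 (i, b) = (p.1 i, CARD_eps (p.2 i) b) := rfl

theorem CARD_bij (n : ℕ) : Function.Bijective (CARD_map n) := by
  constructor
  · rintro ⟨p1, p2⟩ ⟨q1, q2⟩ h
    have h1 : ∀ i, (p1 i, CARD_eps (p2 i) true) = (q1 i, CARD_eps (q2 i) true) := by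
      intro i
      have := congrArg (fun w : W n => w.1 (i, true)) h
      exact this
    refine Prod.ext ?_ ?_
    · exact Equiv.ext fun i => (Prod.ext_iff.mp (h1 i)).1
    · funext i
      exact CARD_eps_inj (Prod.ext_iff.mp (h1 i)).2
  · rintro ⟨σ, hσ⟩
    have hσ' := mem_W.mp hσ
    have hinj : Function.Injective fun i : Fin n => (σ (i, true)).1 := by
      intro i j hij
      have hij' : (σ (i, true)).1 = (σ (j, true)).1 := hij
      by_cases h2 : (σ (i, true)).2 = (σ (j, true)).2
      · have h3 : σ (i, true) = σ (j, true) := Prod.ext hij' h2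
        exact (Prod.ext_iff.mp (σ.injective h3)).1
      · have h4 := hσ' (j, true)
        have h3 : σ (i, true) = σ (j, !true) := by
          rw [h4]
          refine Prod.ext hij' ?_
          show (σ (i, true)).2 = !(σ (j, true)).2
          revert h2
          cases (σ (i, true)).2 <;> cases (σ (j, true)).2 <;> simp
        exact (Prod.ext_iff.mp (σ.injective h3)).1
    have hbij : Function.Bijective fun i : Fin n => (σ (i, true)).1 :=
      Finite.injective_iff_bijective.mp hinj
    refine ⟨(Equiv.ofBijective _ hbij, fun i => !(σ (i, true)).2), ?_⟩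
    apply Subtype.ext
    ext ⟨i, b⟩ : 1
    rw [CARD_apply]
    have h0 : (σ (i, false)) = ((σ (i, true)).1, !(σ (i, true)).2) := hσ' (i, true)
    cases b
    · rw [h0]
      refine Prod.ext rfl ?_
      show CARD_eps (!(σ (i, true)).2) false = !(σ (i, true)).2
      cases (σ (i, true)).2 <;> simp [CARD_eps]
    · refine Prod.ext rfl ?_
      show CARD_eps (!(σ (i, true)).2) true = (σ (i, true)).2
      cases (σ (i, true)).2 <;> simp [CARD_eps]

theorem CARD : CARD_stmt := by
  intro n
  rw [← Nat.card_congr (Equiv.ofBijective _ (CARD_bij n)), Nat.card_eq_fintype_card,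
    Fintype.card_prod, Fintype.card_perm, Fintype.card_fun, Fintype.card_fin, Fintype.card_bool,
    mul_comm]

end Pool.Agent.helper27.PC
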